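import Mathlib

set_option autoImplicit false

namespace Pool.Agent.Results.MP_ffa63f_al.SNormal

open scoped Pointwise

variable {G : Type*} [Group G]

/-- `G = F A` for a finite `F`. -/
def Large (A : Set G) : Prop := ∃ F : Finset G, (F : Set G) * A = Set.univ

/-- `L \ A` is large for every large `L`. -/
def Small (A : Set G) : Prop := ∀ L : Set G, Large L → Large (L \ A)

/-- The conjugate `f H f⁻¹`. -/
def cj (H : Subgroup G) (f : G) : Subgroup G := H.map (MulAut.conj f).toMonoidHom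

lemma mem_cj {H : Subgroup G} {f x : G} : x ∈ cj H f ↔ f⁻¹ * x * f ∈ H := by
  refine ⟨?_, fun h => ⟨_, h, by simp [mul_assoc]⟩⟩
  rintro ⟨y, hy, rfl⟩
  simpa [mul_assoc] using hy

lemma greedy (D : Subgroup G) (F : Finset G) (hF : F.Nonempty) (P : G → Subgroup G)
    (h : ∀ f ∈ F, (P f).relIndex D = 0) (n : ℕ) :
    ∃ K : Finset D, K.card = n ∧ ∀ k ∈ K, ∀ k' ∈ K, k ≠ k' → ∀ f ∈ F, (k : G) * (k' : G)⁻¹ ∉ P f := by
  classical
  induction n with
  | zero => exact ⟨∅, rfl, by simp⟩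
  | succ n ih =>
    obtain ⟨K, hK, h1⟩ := ih
    have : ∃ e : D, ∀ k ∈ K, ∀ f ∈ F, (k : G) * e ∉ P f := by
      by_contra! h2
      obtain ⟨i, hi, h3⟩ := Subgroup.exists_finiteIndex_of_leftCoset_cover
        (H := fun i : D × G => (P i.2).subgroupOf D) (g := fun i => i.1⁻¹) (s := K ×ˢ F) (by
          refine Set.eq_univ_of_forall fun e => ?_
          obtain ⟨k, hk, f, hf, h4⟩ := h2 e
          refine Set.mem_biUnion (x := (k, f)) (Finset.mem_coe.mpr (Finset.mk_mem_product hk hf)) ?_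
          rw [mem_leftCoset_iff]
          simpa [Subgroup.mem_subgroupOf] using h4)
      exact h3.1 (h _ (Finset.mem_product.mp hi).2)
    obtain ⟨e, he⟩ := this
    obtain ⟨f₀, hf₀⟩ := hF
    have hn : e⁻¹ ∉ K := fun h => he _ h f₀ hf₀ (by simp)
    refine ⟨insert e⁻¹ K, by rw [Finset.card_insert_of_notMem hn, hK], fun k hk k' hk' hne f hf => ?_⟩
    rcases Finset.mem_insert.mp hk with rfl | hk <;> rcases Finset.mem_insert.mp hk' with rfl | hk'
    · exact absurd rfl hne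
    · exact fun h => he k' hk' f hf (by simpa using (P f).inv_mem h)
    · simpa using he k hk f hf
    · exact h1 k hk k' hk' hne f hf

theorem result (G : Type*) [Group G] (H L : Subgroup G) (hc : Countable (L ⧸ H.subgroupOf L))
    (hi : ∀ F : Finset G, ∀ f ∈ F, (cj H f).relIndex (⨅ g ∈ F, cj L g) = 0) :
    ∃ C S : Set G, C.Countable ∧ Small S ∧ C * S = Set.univ := by
  classical
  let r : G → G := fun s => (Quotient.mk (QuotientGroup.rightRel L) s).out
  have r1 : ∀ s, s * (r s)⁻¹ ∈ L := fun s =>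
    QuotientGroup.rightRel_apply.mp (Quotient.exact (Quotient.out_eq (Quotient.mk (QuotientGroup.rightRel L) s)))
  have r2 : ∀ s t, t * s⁻¹ ∈ L → r s = r t := fun s t h =>
    congrArg Quotient.out (Quotient.sound (s := QuotientGroup.rightRel L) (QuotientGroup.rightRel_apply.mpr h))
  refine ⟨Set.range fun q : L ⧸ H.subgroupOf L => (q.out : G), {s | s * (r s)⁻¹ ∈ H},
    Set.countable_range _, ?_, Set.eq_univ_of_forall fun g => ?_⟩
  · rintro A ⟨F, hF⟩
    have hF' : ∀ g : G, ∃ f ∈ F, ∃ a ∈ A, f * a = g := fun g => by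
      have : g ∈ (F : Set G) * A := hF ▸ Set.mem_univ g
      exact this
    obtain ⟨K, hK, h1⟩ := greedy _ F (let ⟨f, hf, _⟩ := hF' 1; ⟨f, hf⟩) (cj H) (hi F) (F.card + 1)
    refine ⟨(K.image fun k : ↥(⨅ g ∈ F, cj L g) => (k : G)⁻¹) * F, Set.eq_univ_of_forall fun g => ?_⟩
    choose φ h2 a h3 h4 using fun k : G => hF' (k * g)
    by_contra h5
    have h6 : ∀ k ∈ K, a k * (r (a k))⁻¹ ∈ H := fun k hk => by_contra fun h => h5
      ⟨(k : G)⁻¹ * φ k, Finset.mem_coe.mpr (Finset.mul_mem_mul (Finset.mem_image_of_mem _ hk) (h2 k)),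
        a k, ⟨h3 k, h⟩, by simp only [mul_assoc, h4, inv_mul_cancel_left]⟩
    obtain ⟨k, hk, k', hk', hne, h7⟩ := Finset.exists_ne_map_eq_of_card_lt_of_maps_to
      (s := K) (t := F) (by omega) (f := fun k => φ k) fun k _ => h2 k
    have h8 : (φ k)⁻¹ * ((k : G) * (k' : G)⁻¹) * φ k = a k * (a k')⁻¹ := by
      have e1 : a k = (φ k)⁻¹ * (k * g) := eq_inv_mul_of_mul_eq (h4 k)
      have e2 : a k' = (φ k)⁻¹ * (k' * g) := eq_inv_mul_of_mul_eq (h7 ▸ h4 k')
      rw [e1, e2]; group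
    have h9 : a k * (a k')⁻¹ ∈ L := by
      rw [← h8, ← mem_cj]
      have := (k * k'⁻¹).2
      simp only [Subgroup.mem_iInf] at this
      exact this _ (h2 k)
    refine h1 k hk k' hk' hne _ (h2 k) (mem_cj.mpr ?_)
    have := H.mul_mem (h6 k hk) (H.inv_mem (h6 k' hk'))
    rw [r2 _ _ h9] at this
    rw [h8]
    simpa [mul_assoc] using this
  · let l : L := ⟨_, r1 g⟩
    let c : L := (QuotientGroup.mk l : L ⧸ H.subgroupOf L).out
    have h1 : c⁻¹ * l ∈ H.subgroupOf L := QuotientGroup.eq.mp (QuotientGroup.out_eq' _)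
    refine ⟨c, ⟨_, rfl⟩, (c : G)⁻¹ * g, ?_, by simp⟩
    have h2 : r ((c : G)⁻¹ * g) = r g := r2 _ _ (by simp)
    change _ * (r _)⁻¹ ∈ H
    rw [h2, mul_assoc]
    exact h1

end Pool.Agent.Results.MP_ffa63f_al.SNormal
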